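import Pool.Agent.H917R2.HS.Bridge3

/-!
ROOM HS (helper917): `H498HS.PS` depends on `f` and `v` through `f v` only; the bridge with a
unit vector `v`.
-/

set_option autoImplicit false
set_option linter.unusedSectionVars false
set_option linter.unusedSimpArgs false
set_option linter.unnecessarySeqFocus false
set_option maxHeartbeats 4000000
set_option maxRecDepth 10000

noncomputable section

namespace H917B

open H902HO

variable {R : Type*} [CommRing R]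

/-- scalar multiple of a quaternion -/
def qs (b : R) (a : H498HS.Qt R) : H498HS.Qt R := ⟨b * a.re, b • a.im⟩

theorem BB_sc (e b f : R) (r a c : H498HS.Qt R) (M : T R) :
    H498HS.BB e (f * b) r a c M = H498HS.BB e f r (qs b a) (qs b c) M := by
  ext <;> simp [H498HS.BB, qs, T.dot] <;> ring

theorem BT_sc (e b f : R) (r a c : H498HS.Qt R) (M : T R) :
    H498HS.BT e (f * b) r a c M = H498HS.BT e f r (qs b a) (qs b c) M := by
  ext <;> simp [H498HS.BT, qs, T.dot] <;> ring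

theorem da_sc (b : R) (a : H498HS.Qt R) (w : T R) :
    H498HS.da (qs b a) w = qs b (H498HS.da a w) := by
  ext <;> simp [H498HS.da, qs, H498HS.Qt.imul, H498HS.Qt.neg, T.dot, T.cr] <;> ring

theorem duQ_sc (b : R) (a a' : H498HS.Qt R) :
    H498HS.duQ (qs b a) (qs b a') = qs (⟨b, 0⟩ : H498HS.Du R) (H498HS.duQ a a') := by
  ext <;> simp [H498HS.duQ, qs]

theorem jtQ_sc (b : R) (a a' a'' a''' : H498HS.Qt R) :
    H498HS.jtQ (qs b a) (qs b a') (qs b a'') (qs b a''') =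
      qs (⟨b, 0, 0, 0⟩ : H498HS.Jt R) (H498HS.jtQ a a' a'' a''') := by
  ext <;> simp [H498HS.jtQ, qs]

theorem du_mul' (b f : R) : (⟨f * b, 0⟩ : H498HS.Du R) = ⟨f, 0⟩ * ⟨b, 0⟩ := by
  ext <;> simp

theorem jt_mul' (b f : R) : (⟨f * b, 0, 0, 0⟩ : H498HS.Jt R) = ⟨f, 0, 0, 0⟩ * ⟨b, 0, 0, 0⟩ := by
  ext <;> simp

theorem BB1_sc (e b f : R) (r a c : H498HS.Qt R) (w : H498HS.M6 R) (M : T R) :
    H498HS.BB1 0 e (f * b) r a c w M = H498HS.BB1 0 e f r (qs b a) (qs b c) w M := by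
  rw [H498HS.BB1, H498HS.BB1, da_sc, da_sc, duQ_sc, duQ_sc, du_mul', BB_sc]

theorem BT1_sc (e b f : R) (r a c : H498HS.Qt R) (w : H498HS.M6 R) (M : T R) :
    H498HS.BT1 0 e (f * b) r a c w M = H498HS.BT1 0 e f r (qs b a) (qs b c) w M := by
  rw [H498HS.BT1, H498HS.BT1, da_sc, da_sc, duQ_sc, duQ_sc, du_mul', BT_sc]

theorem BB2_sc (e b f : R) (r a c : H498HS.Qt R) (w u : H498HS.M6 R) (M : T R) :
    H498HS.BB2 0 e (f * b) r a c w u M = H498HS.BB2 0 e f r (qs b a) (qs b c) w u M := by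
  rw [H498HS.BB2, H498HS.BB2]
  simp only [da_sc, jtQ_sc, jt_mul', BB_sc]

theorem BT2_sc (e b f : R) (r a c : H498HS.Qt R) (w u : H498HS.M6 R) (M : T R) :
    H498HS.BT2 0 e (f * b) r a c w u M = H498HS.BT2 0 e f r (qs b a) (qs b c) w u M := by
  rw [H498HS.BT2, H498HS.BT2]
  simp only [da_sc, jtQ_sc, jt_mul', BT_sc]

theorem mul_sc (b : R) (x v : H498HS.Qt R) : x.mul (qs b v) = qs b (x.mul v) := by
  ext <;> simp [H498HS.Qt.mul, qs, T.dot, T.cr] <;> ring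

/-- `PS` depends on `f v` only. -/
theorem PS_scale (W U : Sym R) (A : H498HS.Mat R) (e b f l : R) (v x y : H498HS.Qt R)
    (α β Γ : H498HS.M6 R) :
    H498HS.PS 0 1 ⟨W, U, A, e, f * b, l⟩ v x y α β Γ =
      H498HS.PS 0 1 ⟨W, U, A, e, f, l⟩ (qs b v) x y α β Γ := by
  rw [H498HS.PS, H498HS.PS, mul_sc, mul_sc]
  have h0 : H498HS.K0 (⟨W, U, A, e, f * b, l⟩ : H498HS.Par R) x y (x.conj.mul y)
      (x.conj.mul v) (y.conj.mul v) = H498HS.K0 (⟨W, U, A, e, f, l⟩ : H498HS.Par R) x y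
      (x.conj.mul y) (qs b (x.conj.mul v)) (qs b (y.conj.mul v)) := by
    funext a
    simp only [H498HS.K0, BB_sc, BT_sc]
  have h1 : H498HS.K1 0 (⟨W, U, A, e, f * b, l⟩ : H498HS.Par R) x y (x.conj.mul y)
      (x.conj.mul v) (y.conj.mul v) = H498HS.K1 0 (⟨W, U, A, e, f, l⟩ : H498HS.Par R) x y
      (x.conj.mul y) (qs b (x.conj.mul v)) (qs b (y.conj.mul v)) := by
    funext w a
    simp only [H498HS.K1, BB1_sc, BT1_sc]
  have h2 : H498HS.K2 0 (⟨W, U, A, e, f * b, l⟩ : H498HS.Par R) x y (x.conj.mul y)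
      (x.conj.mul v) (y.conj.mul v) = H498HS.K2 0 (⟨W, U, A, e, f, l⟩ : H498HS.Par R) x y
      (x.conj.mul y) (qs b (x.conj.mul v)) (qs b (y.conj.mul v)) := by
    funext w u a
    simp only [H498HS.K2, BB2_sc, BT2_sc]
  rw [h0, h1, h2]

/-- **The bridge with a unit vector `v`**: helper563's normalisation `e = ε/4`, `f = ε b/2`
corresponds to `e' = ε/8`, twist vector `b v`. -/
theorem PS_eq_unit (W U : Sym ℝ) (A : H498HS.Mat ℝ) (ε b l : ℝ) {v g : H498HS.Qt ℝ}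
    (hg : H498HS.Qt.dot g g = 1) (α β Γ : H498HS.M6 ℝ) :
    H498HS.PS 0 1 ⟨W, U, A, ε / 4, ε * b / 2, l⟩ v q1 g α β Γ =
      HopfG.HS.PS ⟨tS W, tS U, tM A, b • tQ v, ε / 8, l⟩ (tQ g) (t6 α) (t6 β) (t6 Γ) := by
  have e1 : ε * b / 2 = ε / 2 * b := by ring
  rw [e1, PS_scale, PS_eq (D := ⟨W, U, A, ε / 4, ε / 2, l⟩) (e' := ε / 8) (by ring) (by ring) hg]
  have hv : tQ (qs b v) = b • tQ v := by
    refine HopfG.Eqv.ext4 ?_ ?_ ?_ ?_ <;> simp [qs]
  simp only [tD, hv]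

end H917B
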